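import Mathlib

/-!
# Conditional bases indexed by upward-directed families of finite sets (Fremlin)

The space is `E = ℓ¹(ℕ × ℤ)`. The index set is `E × C × ℕ × {aux, +, -}` where `C` is a cone of
finitely supported vectors with `C - C` dense. The vector with index `(e, p, l, ±)` is
`±(p + 2⁻ˡ z)`, where `z` is a private vector carried by a ray of `ℕ × ℤ`; distinct rays are almost
disjoint, and this makes the family independent for unconditional sums. The members of the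
directed family `D` are the finite sets `d` such that, for every `γ` in a Hamel basis `Γ` of a
linear complement of the space of unconditional sums, the sum over `d ∩ J_γ` is close to `γ` as
soon as `d` has auxiliary indices of `γ`. Then every vector has exactly one expansion along `D`.
-/

set_option autoImplicit false

open Filter Topology

namespace Pool.Agent.Results.MP_e67678_an.DiscontinuousCoefficients

/-- `y = ∑^D_{i ∈ I} α i • x i`: for every `ε > 0` there is `d ∈ D` such that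
`‖y - ∑_{i ∈ d'} α i • x i‖ < ε` for every `d' ∈ D` with `d ⊆ d'`. -/
def DSum {𝕜 E I : Type} [RCLike 𝕜] [NormedAddCommGroup E] [NormedSpace 𝕜 E]
    (D : Set (Finset I)) (α : I → 𝕜) (x : I → E) (y : E) : Prop :=
  ∀ ε : ℝ, 0 < ε → ∃ d ∈ D, ∀ d' ∈ D, d ⊆ d' → ‖y - ∑ i ∈ d', α i • x i‖ < ε

variable {𝕜 E : Type} [RCLike 𝕜] [NormedAddCommGroup E] [NormedSpace 𝕜 E]

/-- index set -/
abbrev Idx (C : Set E) := E × C × ℕ × Option Bool

/-- sign -/
def sg (𝕜 : Type) [RCLike 𝕜] : Option Bool → 𝕜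
  | some false => -1
  | _ => 1

/-- the data used in the construction -/
structure Kit (𝕜 E : Type) [RCLike 𝕜] [NormedAddCommGroup E] [NormedSpace 𝕜 E] where
  C : Set E
  z : Idx C → E
  ρ : E →L[𝕜] 𝕜
  hz : ∀ i, ‖z i‖ ≤ 2
  hρz : ∀ i, ρ (z i) = 1
  hρC : ∀ p ∈ C, 0 < RCLike.re (ρ p)
  add : ∀ p ∈ C, ∀ q ∈ C, p + q ∈ C
  smul : ∀ r : ℝ, 0 < r → ∀ p ∈ C, (r : 𝕜) • p ∈ C
  ne : ∃ p, p ∈ C
  approx : ∀ (y : E) (δ : ℝ), 0 < δ → ∃ p ∈ C, ∃ q ∈ C, ‖p - q - y‖ < δ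
  sep : ∀ p ∈ C, ∀ q ∈ C, ∃ r ∈ C, ∃ ψ : E →L[𝕜] 𝕜, ψ p = 0 ∧ ψ q = 0 ∧ ψ r ≠ 0
  indep : ∀ u : Idx C → 𝕜, HasSum (fun i => u i •
    ((sg 𝕜 i.2.2.2) • ((i.2.1 : E) + ((2:𝕜)⁻¹ ^ i.2.2.1) • z i))) 0 → u = 0

namespace Kit

variable (K : Kit 𝕜 E)

/-- the vectors -/
noncomputable def x (i : Idx K.C) : E :=
  (sg 𝕜 i.2.2.2) • ((i.2.1 : E) + ((2:𝕜)⁻¹ ^ i.2.2.1) • K.z i)

/-- membership in the block of γ -/
def inJ (γ : E) (i : Idx K.C) : Prop := i.1 = γ ∧ i.2.2.2 ≠ none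

open Classical in
/-- block sum -/
noncomputable def X (γ : E) (d : Finset (Idx K.C)) : E := ∑ i ∈ d, if K.inJ γ i then K.x i else 0

/-- the directed family -/
def D (Γ : Set E) : Set (Finset (Idx K.C)) :=
  {d | ∀ i ∈ d, i.1 ∈ Γ → i.2.2.2 = none → ‖K.X i.1 d - i.1‖ < 1 / ((i.2.2.1 : ℝ) + 1)}

lemma norm_pow (l : ℕ) : ‖((2:𝕜)⁻¹ ^ l)‖ = (1/2 : ℝ) ^ l := by
  rw [_root_.norm_pow, norm_inv, RCLike.norm_two]; norm_num

lemma norm_small (l : ℕ) (i : Idx K.C) : ‖((2:𝕜)⁻¹ ^ l) • K.z i‖ ≤ 2 * (1/2 : ℝ) ^ l := by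
  rw [norm_smul, norm_pow]
  have := K.hz i
  have h2 : (0:ℝ) ≤ (1/2 : ℝ) ^ l := by positivity
  nlinarith

lemma x_pos (γ : E) (p : K.C) (l : ℕ) :
    K.x (γ, p, l, some true) = p + ((2:𝕜)⁻¹ ^ l) • K.z (γ, p, l, some true) := by
  simp [x, sg]

lemma x_neg (γ : E) (p : K.C) (l : ℕ) :
    K.x (γ, p, l, some false) = -(p + ((2:𝕜)⁻¹ ^ l) • K.z (γ, p, l, some false)) := by
  simp only [x, sg, neg_smul, one_smul]

lemma exists_L (d : Finset (Idx K.C)) : ∃ L : ℕ, ∀ i ∈ d, i.2.2.1 < L :=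
  ⟨d.sup (fun i => i.2.2.1) + 1, fun _ hi =>
    Nat.lt_succ_of_le (Finset.le_sup (f := fun i : Idx K.C => i.2.2.1) hi)⟩

lemma X_insert_of (γ : E) (d : Finset (Idx K.C)) (i : Idx K.C) (hi : i ∉ d)
    (h : K.inJ γ i) [DecidableEq (Idx K.C)] : K.X γ (insert i d) = K.x i + K.X γ d := by
  unfold X
  rw [Finset.sum_insert hi, if_pos h]

lemma X_insert_not (γ : E) (d : Finset (Idx K.C)) (i : Idx K.C) (hi : i ∉ d)
    (h : ¬ K.inJ γ i) [DecidableEq (Idx K.C)] : K.X γ (insert i d) = K.X γ d := by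
  unfold X
  rw [Finset.sum_insert hi, if_neg h, zero_add]

lemma pair (γ y : E) (δ : ℝ) (hδ : 0 < δ) : ∃ p q : K.C, ∃ L : ℕ, ∀ l l' : ℕ, L ≤ l → L ≤ l' →
    ‖K.x (γ, p, l, some true) + K.x (γ, q, l', some false) - y‖ < δ := by
  obtain ⟨p, hp, q, hq, hpq⟩ := K.approx y (δ/2) (by positivity)
  obtain ⟨L, hL⟩ := exists_pow_lt_of_lt_one (show (0:ℝ) < δ/8 by positivity)
    (show (1/2 : ℝ) < 1 by norm_num)
  refine ⟨⟨p, hp⟩, ⟨q, hq⟩, L, fun l l' hl hl' => ?_⟩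
  rw [x_pos, x_neg]
  have e : (↑(⟨p, hp⟩ : K.C) + ((2:𝕜)⁻¹ ^ l) • K.z (γ, ⟨p, hp⟩, l, some true) : E)
      + -(↑(⟨q, hq⟩ : K.C) + ((2:𝕜)⁻¹ ^ l') • K.z (γ, ⟨q, hq⟩, l', some false)) - y
      = (p - q - y) + ((2:𝕜)⁻¹ ^ l) • K.z (γ, ⟨p, hp⟩, l, some true)
        - ((2:𝕜)⁻¹ ^ l') • K.z (γ, ⟨q, hq⟩, l', some false) := by
    simp only
    abel
  rw [e]
  have h1 := K.norm_small l (γ, ⟨p, hp⟩, l, some true)
  have h2 := K.norm_small l' (γ, ⟨q, hq⟩, l', some false)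
  have h3 : (1/2:ℝ) ^ l ≤ (1/2:ℝ)^L := pow_le_pow_of_le_one (by norm_num) (by norm_num) hl
  have h4 : (1/2:ℝ) ^ l' ≤ (1/2:ℝ)^L := pow_le_pow_of_le_one (by norm_num) (by norm_num) hl'
  calc _ ≤ ‖(p - q - y) + ((2:𝕜)⁻¹ ^ l) • K.z (γ, ⟨p, hp⟩, l, some true)‖
        + ‖((2:𝕜)⁻¹ ^ l') • K.z (γ, ⟨q, hq⟩, l', some false)‖ := norm_sub_le _ _
    _ ≤ ‖p - q - y‖ + ‖((2:𝕜)⁻¹ ^ l) • K.z (γ, ⟨p, hp⟩, l, some true)‖
        + ‖((2:𝕜)⁻¹ ^ l') • K.z (γ, ⟨q, hq⟩, l', some false)‖ := by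
          gcongr; exact norm_add_le _ _
    _ < δ := by linarith

lemma ext (w : Finset (Idx K.C)) (T : Finset E) (δ : ℝ) (hδ : 0 < δ) :
    ∃ d, w ⊆ d ∧ (∀ i ∈ d, i ∉ w → i.2.2.2 ≠ none) ∧ ∀ γ ∈ T, ‖K.X γ d - γ‖ < δ := by
  classical
  induction T using Finset.induction_on with
  | empty => exact ⟨w, subset_rfl, fun i h1 h2 => absurd h1 h2, by simp⟩
  | insert γ T hγ ih =>
    obtain ⟨d, hwd, hd, hT⟩ := ih
    obtain ⟨p, q, L, hL⟩ := K.pair γ (γ - K.X γ d) δ hδ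
    obtain ⟨M, hM⟩ := K.exists_L d
    set l := max L M with hl
    have h1 : ((γ, q, l, some false) : Idx K.C) ∉ d := fun h => by
      have := hM _ h; simp only at this; omega
    have h2 : ((γ, p, l, some true) : Idx K.C) ∉ insert ((γ, q, l, some false) : Idx K.C) d := by
      rw [Finset.mem_insert, not_or]
      refine ⟨by simp, fun h => ?_⟩
      have := hM _ h; simp only at this; omega
    refine ⟨insert (γ, p, l, some true) (insert (γ, q, l, some false) d), ?_, ?_, ?_⟩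
    · exact hwd.trans ((Finset.subset_insert _ _).trans (Finset.subset_insert _ _))
    · intro i hi hiw
      rw [Finset.mem_insert, Finset.mem_insert] at hi
      rcases hi with rfl | rfl | hi
      · simp
      · simp
      · exact hd i hi hiw
    · intro γ' hγ'
      rcases Finset.mem_insert.1 hγ' with rfl | hγ'
      · rw [X_insert_of _ _ _ _ h2 ⟨rfl, by simp⟩, X_insert_of _ _ _ _ h1 ⟨rfl, by simp⟩]
        have := hL l l (le_max_left _ _) (le_max_left _ _)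
        convert this using 2
        abel
      · have hne : γ ≠ γ' := fun h => hγ (h ▸ hγ')
        rw [X_insert_not _ _ _ _ h2 (fun h => hne h.1), X_insert_not _ _ _ _ h1 (fun h => hne h.1)]
        exact hT γ' hγ'

lemma exists_ext (Γ : Set E) (w : Finset (Idx K.C)) (δ : ℝ) (hδ : 0 < δ) :
    ∃ d ∈ K.D Γ, w ⊆ d ∧ (∀ i ∈ d, i ∉ w → i.2.2.2 ≠ none) ∧ ∀ i ∈ w, ‖K.X i.1 d - i.1‖ < δ := by
  classical
  obtain ⟨M, hM⟩ := K.exists_L w
  obtain ⟨d, h1, h2, h3⟩ := K.ext w (w.image Prod.fst) (min δ (1 / ((M:ℝ) + 1))) (by positivity)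
  have h4 : ∀ i ∈ w, ‖K.X i.1 d - i.1‖ < min δ (1 / ((M:ℝ) + 1)) := fun i hi =>
    h3 _ (Finset.mem_image_of_mem _ hi)
  refine ⟨d, ?_, h1, h2, fun i hi => (h4 i hi).trans_le (min_le_left _ _)⟩
  intro i hi _ hnone
  have hiw : i ∈ w := by
    by_contra h
    exact h2 i hi h hnone
  refine (h4 i hiw).trans_le ((min_le_right _ _).trans ?_)
  have := hM i hiw
  have h5 : ((i.2.2.1 : ℝ)) ≤ M := by exact_mod_cast this.le
  exact one_div_le_one_div_of_le (by positivity) (by linarith)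

lemma star (Γ : Set E) (α : Idx K.C → 𝕜) (h0 : DSum (K.D Γ) α K.x 0) (ε : ℝ) (hε : 0 < ε) :
    ∃ (d0 : Finset (Idx K.C)) (G0 : Finset E) (δ : ℝ), 0 < δ ∧
      ∀ u : Finset (Idx K.C), Disjoint u d0 → (∀ γ ∈ G0, γ ∈ Γ → ‖K.X γ u‖ < δ) →
        ‖∑ i ∈ u, α i • K.x i‖ < ε := by
  classical
  obtain ⟨d0, hd0, hd⟩ := h0 (ε/2) (by positivity)
  obtain ⟨M, hM⟩ := K.exists_L d0
  refine ⟨d0, d0.image Prod.fst, 1 / (2 * ((M:ℝ) + 1)), by positivity, fun u hu hX => ?_⟩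
  obtain ⟨d', hd'D, h1, h2, h3⟩ := K.exists_ext Γ (d0 ∪ u) (1 / (2 * ((M:ℝ) + 1))) (by positivity)
  have hud' : u ⊆ d' := Finset.subset_union_right.trans h1
  have hd0d' : d0 ⊆ d' := Finset.subset_union_left.trans h1
  have hd0' : d0 ⊆ d' \ u := by
    intro i hi
    exact Finset.mem_sdiff.2 ⟨hd0d' hi, fun h => (Finset.disjoint_left.1 hu h) hi⟩
  have hXs : ∀ γ, K.X γ (d' \ u) = K.X γ d' - K.X γ u := by
    intro γ
    unfold X
    rw [eq_sub_iff_add_eq, Finset.sum_sdiff hud']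
  have hD' : d' \ u ∈ K.D Γ := by
    intro i hi hiΓ hnone
    obtain ⟨hid', hiu⟩ := Finset.mem_sdiff.1 hi
    have hiw : i ∈ d0 ∪ u := by
      by_contra h
      exact h2 i hid' h hnone
    have hi0 : i ∈ d0 := (Finset.mem_union.1 hiw).resolve_right hiu
    have h4 := h3 i hiw
    have h5 := hX i.1 (Finset.mem_image_of_mem _ hi0) hiΓ
    rw [hXs]
    have h6 : ‖K.X i.1 d' - K.X i.1 u - i.1‖ ≤ ‖K.X i.1 d' - i.1‖ + ‖K.X i.1 u‖ := by
      have : K.X i.1 d' - K.X i.1 u - i.1 = (K.X i.1 d' - i.1) - K.X i.1 u := by abel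
      rw [this]; exact norm_sub_le _ _
    have h7 : ((i.2.2.1 : ℝ)) ≤ M := by exact_mod_cast (hM i hi0).le
    have h8 : 1 / (2 * ((M:ℝ) + 1)) + 1 / (2 * ((M:ℝ) + 1)) = 1 / ((M:ℝ)+1) := by
      field_simp; norm_num
    have h9 : 1 / ((M:ℝ)+1) ≤ 1 / ((i.2.2.1 : ℝ) + 1) :=
      one_div_le_one_div_of_le (by positivity) (by linarith)
    linarith
  have a1 := hd d' hd'D hd0d'
  have a2 := hd (d' \ u) hD' hd0'
  have e : ∑ i ∈ u, α i • K.x i = (0 - ∑ i ∈ d' \ u, α i • K.x i) - (0 - ∑ i ∈ d', α i • K.x i) := by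
    rw [← Finset.sum_sdiff hud']; abel
  rw [e]
  calc _ ≤ _ := norm_sub_le _ _
    _ < ε := by linarith


lemma X_of_forall (γ : E) (u : Finset (Idx K.C)) (h : ∀ i ∈ u, K.inJ γ i) :
    K.X γ u = ∑ i ∈ u, K.x i := by
  unfold X
  exact Finset.sum_congr rfl fun i hi => if_pos (h i hi)

lemma X_of_ne (γ γ' : E) (hne : γ ≠ γ') (u : Finset (Idx K.C)) (h : ∀ i ∈ u, K.inJ γ i) :
    K.X γ' u = 0 := by
  unfold X
  exact Finset.sum_eq_zero fun i hi => if_neg fun h' => hne ((h i hi).1.symm.trans h'.1)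

/-- block version of the basic inequality -/
lemma starBlock (Γ : Set E) (α : Idx K.C → 𝕜) (h0 : DSum (K.D Γ) α K.x 0) (ε : ℝ) (hε : 0 < ε) :
    ∃ (G0 : Finset E) (L : ℕ) (δ : ℝ), 0 < δ ∧
      ∀ (γ : E) (u : Finset (Idx K.C)), (∀ i ∈ u, K.inJ γ i ∧ L ≤ i.2.2.1) →
        (γ ∈ G0 → γ ∈ Γ → ‖∑ i ∈ u, K.x i‖ < δ) →
        ‖∑ i ∈ u, α i • K.x i‖ < ε := by
  obtain ⟨d0, G0, δ, hδ, h⟩ := K.star Γ α h0 ε hε
  obtain ⟨L, hL⟩ := K.exists_L d0
  refine ⟨G0, L, δ, hδ, fun γ u hu hX => h u ?_ ?_⟩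
  · rw [Finset.disjoint_left]
    intro i hi hi0
    have h1 := hL i hi0
    have h2 := (hu i hi).2
    omega
  · intro γ' hγ' hΓ
    by_cases hne : γ = γ'
    · subst hne
      rw [K.X_of_forall γ u fun i hi => (hu i hi).1]
      exact hX hγ' hΓ
    · rw [K.X_of_ne γ γ' hne u fun i hi => (hu i hi).1]
      simpa using hδ

/-- limit of the vectors of the block -/
lemma tendsto_x_pos (γ : E) (p : K.C) :
    Tendsto (fun l : ℕ => K.x (γ, p, l, some true)) atTop (𝓝 (p : E)) := by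
  have h1 : Tendsto (fun l : ℕ => ((2:𝕜)⁻¹ ^ l) • K.z (γ, p, l, some true)) atTop (𝓝 0) := by
    rw [tendsto_zero_iff_norm_tendsto_zero]
    refine squeeze_zero (fun _ => norm_nonneg _) (fun l => K.norm_small l _) ?_
    have := (tendsto_pow_atTop_nhds_zero_of_lt_one (show (0:ℝ) ≤ 1/2 by norm_num)
      (show (1/2 : ℝ) < 1 by norm_num)).const_mul 2
    simpa using this
  have h2 := h1.const_add (p : E)
  rw [add_zero] at h2
  exact h2.congr fun l => (K.x_pos γ p l).symm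

lemma tendsto_x_neg (γ : E) (p : K.C) :
    Tendsto (fun l : ℕ => K.x (γ, p, l, some false)) atTop (𝓝 (-(p : E))) := by
  have h1 : Tendsto (fun l : ℕ => ((2:𝕜)⁻¹ ^ l) • K.z (γ, p, l, some false)) atTop (𝓝 0) := by
    rw [tendsto_zero_iff_norm_tendsto_zero]
    refine squeeze_zero (fun _ => norm_nonneg _) (fun l => K.norm_small l _) ?_
    have := (tendsto_pow_atTop_nhds_zero_of_lt_one (show (0:ℝ) ≤ 1/2 by norm_num)
      (show (1/2 : ℝ) < 1 by norm_num)).const_mul 2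
    simpa using this
  have h2 := (h1.const_add (p : E)).neg
  rw [add_zero] at h2
  exact h2.congr fun l => (K.x_neg γ p l).symm

lemma ρ_ne (p : K.C) : K.ρ p ≠ 0 := by
  intro h
  have := K.hρC p p.2
  rw [h] at this
  simp at this

lemma two_seq {b b' : ℕ → 𝕜} (h : ∀ ε > 0, ∃ L, ∀ l l', L ≤ l → L ≤ l' → ‖b l - b' l'‖ < ε) :
    ∃ a, Tendsto b atTop (𝓝 a) ∧ Tendsto b' atTop (𝓝 a) := by
  have hc : CauchySeq b := by
    rw [Metric.cauchySeq_iff]
    intro ε hε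
    obtain ⟨L, hL⟩ := h (ε/2) (by positivity)
    refine ⟨L, fun m hm n hn => ?_⟩
    have h1 := hL m L hm le_rfl
    have h2 := hL n L hn le_rfl
    rw [dist_eq_norm]
    have e : b m - b n = (b m - b' L) - (b n - b' L) := by ring
    rw [e]
    calc _ ≤ _ := norm_sub_le _ _
      _ < ε := by linarith
  obtain ⟨a, ha⟩ := cauchySeq_tendsto_of_complete hc
  refine ⟨a, ha, ?_⟩
  have hd : Tendsto (fun l => b l - b' l) atTop (𝓝 0) := by
    rw [Metric.tendsto_atTop]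
    intro ε hε
    obtain ⟨L, hL⟩ := h ε hε
    exact ⟨L, fun n hn => by rw [dist_eq_norm, sub_zero]; exact hL n n hn hn⟩
  have := ha.sub hd
  simpa using this

/-- for a null family, limits of coefficients exist in every block -/
lemma exists_kappa (Γ : Set E) (α : Idx K.C → 𝕜) (h0 : DSum (K.D Γ) α K.x 0) (γ : E) (p : K.C) :
    ∃ κ : 𝕜, Tendsto (fun l : ℕ => α (γ, p, l, some true)) atTop (𝓝 κ) ∧
      Tendsto (fun l : ℕ => α (γ, p, l, some false)) atTop (𝓝 κ) := by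
  classical
  have key : ∀ ε > 0, ∃ L : ℕ, ∀ l l', L ≤ l → L ≤ l' →
      ‖α (γ, p, l, some true) * (K.ρ p + (2:𝕜)⁻¹ ^ l)
        - α (γ, p, l', some false) * (K.ρ p + (2:𝕜)⁻¹ ^ l')‖ < ε := by
    intro ε hε
    obtain ⟨G0, L, δ, hδ, h⟩ := K.starBlock Γ α h0 (ε / (‖K.ρ‖ + 1)) (by positivity)
    obtain ⟨L1, hL1⟩ := exists_pow_lt_of_lt_one (show (0:ℝ) < δ/4 by positivity)
      (show (1/2 : ℝ) < 1 by norm_num)
    refine ⟨max L L1, fun l l' hl hl' => ?_⟩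
    have hne : ((γ, p, l, some true) : Idx K.C) ≠ (γ, p, l', some false) := by simp
    have h1 := h γ {(γ, p, l, some true), (γ, p, l', some false)} (by
      intro i hi
      rw [Finset.mem_insert, Finset.mem_singleton] at hi
      rcases hi with rfl | rfl
      · exact ⟨⟨rfl, by simp⟩, (le_max_left _ _).trans hl⟩
      · exact ⟨⟨rfl, by simp⟩, (le_max_left _ _).trans hl'⟩) (by
      intro _ _
      rw [Finset.sum_pair hne, x_pos, x_neg]
      have e : (p : E) + ((2:𝕜)⁻¹ ^ l) • K.z (γ, p, l, some true) +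
          -((p : E) + ((2:𝕜)⁻¹ ^ l') • K.z (γ, p, l', some false)) =
          ((2:𝕜)⁻¹ ^ l) • K.z (γ, p, l, some true)
            - ((2:𝕜)⁻¹ ^ l') • K.z (γ, p, l', some false) := by abel
      rw [e]
      have h1 := K.norm_small l (γ, p, l, some true)
      have h2 := K.norm_small l' (γ, p, l', some false)
      have h3 : (1/2:ℝ) ^ l ≤ (1/2:ℝ)^L1 := pow_le_pow_of_le_one (by norm_num) (by norm_num)
        ((le_max_right _ _).trans hl)
      have h4 : (1/2:ℝ) ^ l' ≤ (1/2:ℝ)^L1 := pow_le_pow_of_le_one (by norm_num) (by norm_num)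
        ((le_max_right _ _).trans hl')
      calc _ ≤ _ := norm_sub_le _ _
        _ < δ := by linarith)
    rw [Finset.sum_pair hne] at h1
    have h2 : K.ρ (α (γ, p, l, some true) • K.x (γ, p, l, some true) +
        α (γ, p, l', some false) • K.x (γ, p, l', some false)) =
        α (γ, p, l, some true) * (K.ρ p + (2:𝕜)⁻¹ ^ l)
        - α (γ, p, l', some false) * (K.ρ p + (2:𝕜)⁻¹ ^ l') := by
      rw [x_pos, x_neg]
      simp only [map_add, map_smul, map_neg, K.hρz, smul_eq_mul]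
      ring
    rw [← h2]
    calc _ ≤ ‖K.ρ‖ * _ := K.ρ.le_opNorm _
      _ ≤ ‖K.ρ‖ * (ε / (‖K.ρ‖ + 1)) := by gcongr
      _ < ε := by
        rw [mul_div_assoc', div_lt_iff₀ (by positivity)]
        nlinarith [norm_nonneg K.ρ]
  obtain ⟨a, ha, ha'⟩ := two_seq key
  have hpw : Tendsto (fun l : ℕ => K.ρ p + (2:𝕜)⁻¹ ^ l) atTop (𝓝 (K.ρ p)) := by
    have : Tendsto (fun l : ℕ => (2:𝕜)⁻¹ ^ l) atTop (𝓝 0) :=
      tendsto_pow_atTop_nhds_zero_of_norm_lt_one (by rw [norm_inv, RCLike.norm_two]; norm_num)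
    simpa using this.const_add (K.ρ p)
  have hev : ∀ l : ℕ, K.ρ p + (2:𝕜)⁻¹ ^ l ≠ 0 := by
    intro l h
    have h1 := K.hρC p p.2
    have h2 := congrArg RCLike.re h
    have h3 : RCLike.re ((2:𝕜)⁻¹ ^ l) = (1/2 : ℝ)^l := by
      have : ((2:𝕜)⁻¹ ^ l) = (((1/2 : ℝ)^l : ℝ) : 𝕜) := by push_cast; norm_num
      rw [this, RCLike.ofReal_re]
    rw [map_add, h3, map_zero] at h2
    have h4 : (0:ℝ) < (1/2 : ℝ)^l := by positivity
    linarith
  refine ⟨a / K.ρ p, ?_, ?_⟩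
  · refine (ha.div hpw (K.ρ_ne p)).congr fun l => ?_
    exact mul_div_cancel_right₀ _ (hev l)
  · refine (ha'.div hpw (K.ρ_ne p)).congr fun l => ?_
    exact mul_div_cancel_right₀ _ (hev l)


lemma kappa_add (Γ : Set E) (α : Idx K.C → 𝕜) (h0 : DSum (K.D Γ) α K.x 0) (γ : E)
    (κ : K.C → 𝕜) (hκ : ∀ p, Tendsto (fun l : ℕ => α (γ, p, l, some true)) atTop (𝓝 (κ p)) ∧
      Tendsto (fun l : ℕ => α (γ, p, l, some false)) atTop (𝓝 (κ p)))
    (p q : K.C) (hne : p ≠ q) :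
    κ p • (p : E) + (κ q • (q : E) + κ ⟨p + q, K.add p p.2 q q.2⟩ • (-((p : E) + q))) = 0 := by
  classical
  set r : K.C := ⟨p + q, K.add p p.2 q q.2⟩ with hr
  have ht : Tendsto (fun l : ℕ => α (γ, p, l, some true) • K.x (γ, p, l, some true) +
      (α (γ, q, l, some true) • K.x (γ, q, l, some true) +
       α (γ, r, l, some false) • K.x (γ, r, l, some false))) atTop
      (𝓝 (κ p • (p : E) + (κ q • (q : E) + κ r • (-(r : E))))) :=
    ((hκ p).1.smul (K.tendsto_x_pos γ p)).add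
      (((hκ q).1.smul (K.tendsto_x_pos γ q)).add ((hκ r).2.smul (K.tendsto_x_neg γ r)))
  have hx : Tendsto (fun l : ℕ => K.x (γ, p, l, some true) +
      (K.x (γ, q, l, some true) + K.x (γ, r, l, some false))) atTop
      (𝓝 ((p : E) + ((q : E) + (-(r : E))))) :=
    (K.tendsto_x_pos γ p).add ((K.tendsto_x_pos γ q).add (K.tendsto_x_neg γ r))
  have e0 : (p : E) + ((q : E) + (-(r : E))) = 0 := by rw [hr]; simp only; abel
  rw [e0] at hx
  refine tendsto_nhds_unique ht ?_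
  rw [Metric.tendsto_atTop]
  intro ε hε
  obtain ⟨G0, L, δ, hδ, h⟩ := K.starBlock Γ α h0 ε hε
  obtain ⟨L1, hL1⟩ := (Metric.tendsto_atTop.1 hx) δ hδ
  refine ⟨max L L1, fun l hl => ?_⟩
  have n1 : ((γ, q, l, some true) : Idx K.C) ≠ (γ, r, l, some false) := by simp
  have n2 : ((γ, p, l, some true) : Idx K.C) ∉
      ({(γ, q, l, some true), (γ, r, l, some false)} : Finset (Idx K.C)) := by
    rw [Finset.mem_insert, Finset.mem_singleton, not_or]
    refine ⟨fun h => hne ?_, by simp⟩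
    simpa using h
  have h1 := h γ (insert (γ, p, l, some true) {(γ, q, l, some true), (γ, r, l, some false)}) (by
    intro i hi
    rw [Finset.mem_insert, Finset.mem_insert, Finset.mem_singleton] at hi
    rcases hi with rfl | rfl | rfl <;> exact ⟨⟨rfl, by simp⟩, (le_max_left _ _).trans hl⟩) (by
    intro _ _
    rw [Finset.sum_insert n2, Finset.sum_pair n1]
    have := hL1 l ((le_max_right _ _).trans hl)
    rwa [dist_eq_norm, sub_zero] at this)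
  rw [Finset.sum_insert n2, Finset.sum_pair n1] at h1
  rwa [dist_eq_norm, sub_zero]

lemma exists_const (Γ : Set E) (α : Idx K.C → 𝕜) (h0 : DSum (K.D Γ) α K.x 0) (γ : E) :
    ∃ κ : 𝕜, ∀ p, Tendsto (fun l : ℕ => α (γ, p, l, some true)) atTop (𝓝 κ) ∧
      Tendsto (fun l : ℕ => α (γ, p, l, some false)) atTop (𝓝 κ) := by
  choose κ hκ using fun p => K.exists_kappa Γ α h0 γ p
  obtain ⟨p0, hp0⟩ := K.ne
  have hc : ∀ (p r : K.C) (ψ : E →L[𝕜] 𝕜), ψ p = 0 → ψ r ≠ 0 → κ p = κ r := by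
    intro p r ψ h1 h2
    have hne : p ≠ r := fun h => h2 (h ▸ h1)
    have h3 := K.kappa_add Γ α h0 γ κ hκ p r hne
    set s : K.C := ⟨p + r, K.add p p.2 r r.2⟩ with hs
    have h4 := congrArg ψ h3
    have h5 := congrArg K.ρ h3
    simp only [map_add, map_smul, map_neg, map_zero, smul_eq_mul, h1] at h4 h5
    have h6 : κ r = κ s := by
      have : (κ r - κ s) * ψ r = 0 := by linear_combination h4
      rcases mul_eq_zero.1 this with h | h
      · exact sub_eq_zero.1 h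
      · exact absurd h h2
    rw [← h6] at h5
    have : (κ p - κ r) * K.ρ p = 0 := by linear_combination h5
    rcases mul_eq_zero.1 this with h | h
    · exact sub_eq_zero.1 h
    · exact absurd h (K.ρ_ne p)
  refine ⟨κ ⟨p0, hp0⟩, fun p => ?_⟩
  obtain ⟨r, hr, ψ, h1, h2, h3⟩ := K.sep p p.2 p0 hp0
  have e : κ p = κ ⟨p0, hp0⟩ := (hc p ⟨r, hr⟩ ψ h1 h3).trans (hc ⟨p0, hp0⟩ ⟨r, hr⟩ ψ h2 h3).symm
  rw [← e]
  exact hκ p

lemma kappa_zero (α : Idx K.C → 𝕜) (γ : E) (κ : 𝕜)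
    (hκ : ∀ p, Tendsto (fun l : ℕ => α (γ, p, l, some true)) atTop (𝓝 κ))
    (ε : ℝ) (L : ℕ)
    (h : ∀ u : Finset (Idx K.C), (∀ i ∈ u, K.inJ γ i ∧ L ≤ i.2.2.1) → ‖∑ i ∈ u, α i • K.x i‖ < ε) :
    κ = 0 := by
  obtain ⟨p0, hp0⟩ := K.ne
  have hp : 0 < ‖p0‖ := by
    rw [norm_pos_iff]
    rintro rfl
    exact K.ρ_ne ⟨0, hp0⟩ (map_zero _)
  have key : ∀ r : ℝ, 0 < r → ‖κ‖ * (r * ‖p0‖) ≤ ε := by
    intro r hr
    set p : K.C := ⟨(r : 𝕜) • p0, K.smul r hr p0 hp0⟩ with hpdef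
    have h1 := ((hκ p).smul (K.tendsto_x_pos γ p)).norm
    have h2 : ‖κ • (p : E)‖ ≤ ε := by
      refine le_of_tendsto h1 ?_
      filter_upwards [eventually_ge_atTop L] with l hl
      have := h {(γ, p, l, some true)} (by
        intro i hi
        rw [Finset.mem_singleton] at hi
        subst hi
        exact ⟨⟨rfl, by simp⟩, hl⟩)
      rw [Finset.sum_singleton] at this
      exact this.le
    rw [hpdef, norm_smul] at h2
    simp only [norm_smul, RCLike.norm_ofReal, abs_of_pos hr] at h2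
    exact h2
  by_contra hne
  have hk : 0 < ‖κ‖ := norm_pos_iff.2 hne
  have hε : 0 < ε := lt_of_lt_of_le (by positivity) (key 1 one_pos)
  have := key (2 * ε / (‖κ‖ * ‖p0‖)) (by positivity)
  have e : ‖κ‖ * (2 * ε / (‖κ‖ * ‖p0‖) * ‖p0‖) = 2 * ε := by field_simp
  rw [e] at this
  linarith

/-- the coefficient family constant on blocks -/
noncomputable def kk (κ : E → 𝕜) (i : Idx K.C) : 𝕜 := if i.2.2.2 = none then 0 else κ i.1

lemma sum_kk (κ : E → 𝕜) (G : Finset E) (hG : ∀ γ, γ ∉ G → κ γ = 0) (t : Finset (Idx K.C)) :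
    ∑ i ∈ t, K.kk κ i • K.x i = ∑ γ ∈ G, κ γ • K.X γ t := by
  classical
  unfold X
  simp_rw [Finset.smul_sum]
  rw [Finset.sum_comm]
  refine Finset.sum_congr rfl fun i _ => ?_
  unfold kk
  by_cases hi : i.2.2.2 = none
  · rw [if_pos hi, zero_smul]
    refine (Finset.sum_eq_zero fun γ _ => ?_).symm
    rw [if_neg (fun h => h.2 hi), smul_zero]
  · rw [if_neg hi]
    by_cases hG1 : i.1 ∈ G
    · rw [Finset.sum_eq_single i.1]
      · rw [if_pos ⟨rfl, hi⟩]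
      · intro γ _ hγ
        rw [if_neg (fun h => hγ h.1.symm), smul_zero]
      · exact fun h => absurd hG1 h
    · rw [hG _ hG1, zero_smul]
      refine (Finset.sum_eq_zero fun γ hγ => ?_).symm
      rw [if_neg (fun h : K.inJ γ i => hG1 (h.1 ▸ hγ)), smul_zero]


lemma summable_sub (Γ : Set E) [CompleteSpace E] (α : Idx K.C → 𝕜)
    (h0 : DSum (K.D Γ) α K.x 0) (κ : E → 𝕜)
    (hκ : ∀ γ p, Tendsto (fun l : ℕ => α (γ, p, l, some true)) atTop (𝓝 (κ γ)) ∧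
      Tendsto (fun l : ℕ => α (γ, p, l, some false)) atTop (𝓝 (κ γ)))
    (hz : ∀ γ, γ ∉ Γ → κ γ = 0) :
    Summable (fun i => (α i - K.kk κ i) • K.x i) := by
  classical
  rw [summable_iff_vanishing_norm]
  intro ε hε
  obtain ⟨d0, G0, δ, hδ, h⟩ := K.star Γ α h0 (ε/2) (by positivity)
  obtain ⟨M, hM⟩ := K.exists_L d0
  set G := G0.filter (· ∈ Γ) with hG
  have hκ0 : ∀ γ, γ ∉ G → κ γ = 0 := by
    intro γ hγ
    by_cases hΓ : γ ∈ Γ
    · have hγ0 : γ ∉ G0 := fun h' => hγ (Finset.mem_filter.2 ⟨h', hΓ⟩)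
      refine K.kappa_zero α γ (κ γ) (fun p => (hκ γ p).1) (ε/2) M fun u hu => h u ?_ ?_
      · rw [Finset.disjoint_left]
        intro i hi hi0
        have h1 := hM i hi0
        have h2 := (hu i hi).2
        omega
      · intro γ' hγ' _
        rw [K.X_of_ne γ γ' (fun e => hγ0 (e ▸ hγ')) u fun i hi => (hu i hi).1]
        simpa using hδ
    · exact hz γ hΓ
  refine ⟨d0, fun t ht => ?_⟩
  set S : ℝ := ∑ γ ∈ G, ‖κ γ‖ with hS
  have hS0 : 0 ≤ S := Finset.sum_nonneg fun _ _ => norm_nonneg _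
  set δ1 : ℝ := min δ (ε / (4 * (S + 1))) with hδ1
  have hδ1p : 0 < δ1 := by positivity
  choose p q L hL using fun γ => K.pair γ (-K.X γ t) δ1 hδ1p
  obtain ⟨N, hN⟩ := K.exists_L (t ∪ d0)
  set L1 := max N (G.sup L) with hL1
  have hLL : ∀ γ ∈ G, ∀ l, L1 ≤ l → L γ ≤ l := fun γ hγ l hl =>
    (Finset.le_sup hγ).trans ((le_max_right _ _).trans hl)
  -- the added finite set
  let v : ℕ → Finset (Idx K.C) := fun l =>
    G.image (fun γ => ((γ, p γ, l, some true) : Idx K.C)) ∪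
      G.image (fun γ => ((γ, q γ, l, some false) : Idx K.C))
  have hvsum : ∀ l (f : Idx K.C → E), ∑ i ∈ v l, f i =
      ∑ γ ∈ G, (f (γ, p γ, l, some true) + f (γ, q γ, l, some false)) := by
    intro l f
    have hdisj : Disjoint (G.image (fun γ => ((γ, p γ, l, some true) : Idx K.C)))
        (G.image (fun γ => ((γ, q γ, l, some false) : Idx K.C))) := by
      rw [Finset.disjoint_left]
      intro i hi hi'
      obtain ⟨γ, _, rfl⟩ := Finset.mem_image.1 hi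
      obtain ⟨γ', _, h'⟩ := Finset.mem_image.1 hi'
      simp at h'
    rw [Finset.sum_union hdisj, Finset.sum_image, Finset.sum_image, ← Finset.sum_add_distrib]
    · intro a _ b _ hab
      exact congrArg Prod.fst hab
    · intro a _ b _ hab
      exact congrArg Prod.fst hab
  have hvl : ∀ l, ∀ i ∈ v l, i.2.2.1 = l := by
    intro l i hi
    rcases Finset.mem_union.1 hi with hi | hi <;>
    · obtain ⟨γ, _, rfl⟩ := Finset.mem_image.1 hi
      rfl
  have hvt : ∀ l, L1 ≤ l → Disjoint t (v l) := by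
    intro l hl
    rw [Finset.disjoint_left]
    intro i hi hi'
    have h1 := hN i (Finset.mem_union_left _ hi)
    have h2 := hvl l i hi'
    have h3 : N ≤ L1 := le_max_left _ _
    omega
  have hvX : ∀ l, ∀ γ ∈ G, K.X γ (v l) = K.x (γ, p γ, l, some true) + K.x (γ, q γ, l, some false) := by
    intro l γ hγ
    unfold X
    rw [hvsum l, Finset.sum_eq_single γ]
    · rw [if_pos ⟨rfl, by simp⟩, if_pos ⟨rfl, by simp⟩]
    · intro γ' _ hne
      rw [if_neg (fun h' => hne h'.1), if_neg (fun h' => hne h'.1), add_zero]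
    · exact fun h' => absurd hγ h'
  have hmain : ∀ l, L1 ≤ l → ‖∑ i ∈ t, α i • K.x i +
      ∑ γ ∈ G, (α (γ, p γ, l, some true) • K.x (γ, p γ, l, some true) +
        α (γ, q γ, l, some false) • K.x (γ, q γ, l, some false))‖ < ε / 2 := by
    intro l hl
    rw [← hvsum l (fun i => α i • K.x i), ← Finset.sum_union (hvt l hl)]
    refine h _ ?_ ?_
    · rw [Finset.disjoint_left]
      intro i hi hi0
      rcases Finset.mem_union.1 hi with hi | hi
      · exact (Finset.disjoint_left.1 ht hi) hi0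
      · have h1 := hN i (Finset.mem_union_right _ hi0)
        have h2 := hvl l i hi
        have h3 : N ≤ L1 := le_max_left _ _
        omega
    · intro γ hγ0 hγΓ
      have hγ : γ ∈ G := Finset.mem_filter.2 ⟨hγ0, hγΓ⟩
      have e : K.X γ (t ∪ v l) = K.X γ t + K.X γ (v l) := by
        unfold X
        exact Finset.sum_union (hvt l hl)
      rw [e, hvX l γ hγ]
      have := hL γ l l (hLL γ hγ l hl) (hLL γ hγ l hl)
      have e2 : K.X γ t + (K.x (γ, p γ, l, some true) + K.x (γ, q γ, l, some false)) =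
          K.x (γ, p γ, l, some true) + K.x (γ, q γ, l, some false) - -K.X γ t := by abel
      rw [e2]
      exact this.trans_le (min_le_left _ _)
  have hlim : ‖∑ i ∈ t, α i • K.x i +
      ∑ γ ∈ G, (κ γ • (p γ : E) + κ γ • (-(q γ : E)))‖ ≤ ε / 2 := by
    refine le_of_tendsto ((tendsto_const_nhds.add (tendsto_finsetSum G fun γ _ =>
      ((hκ γ (p γ)).1.smul (K.tendsto_x_pos γ (p γ))).add
        ((hκ γ (q γ)).2.smul (K.tendsto_x_neg γ (q γ))))).norm) ?_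
    filter_upwards [eventually_ge_atTop L1] with l hl
    exact (hmain l hl).le
  have hlim2 : ∀ γ ∈ G, ‖(p γ : E) + -(q γ : E) - -K.X γ t‖ ≤ δ1 := by
    intro γ hγ
    refine le_of_tendsto ((((K.tendsto_x_pos γ (p γ)).add (K.tendsto_x_neg γ (q γ))).sub
      tendsto_const_nhds).norm) ?_
    filter_upwards [eventually_ge_atTop L1] with l hl
    exact (hL γ l l (hLL γ hγ l hl) (hLL γ hγ l hl)).le
  have e1 : ∑ i ∈ t, (α i - K.kk κ i) • K.x i =
      (∑ i ∈ t, α i • K.x i + ∑ γ ∈ G, (κ γ • (p γ : E) + κ γ • (-(q γ : E))))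
      - ∑ γ ∈ G, κ γ • ((p γ : E) + -(q γ : E) - -K.X γ t) := by
    simp_rw [sub_smul]
    rw [Finset.sum_sub_distrib, K.sum_kk κ G hκ0 t, add_sub_assoc, ← Finset.sum_sub_distrib,
      sub_eq_add_neg, ← Finset.sum_neg_distrib]
    congr 1
    refine Finset.sum_congr rfl fun γ _ => ?_
    rw [smul_sub, smul_add, smul_neg (κ γ) (K.X γ t)]
    abel
  rw [e1]
  calc _ ≤ ‖∑ i ∈ t, α i • K.x i + ∑ γ ∈ G, (κ γ • (p γ : E) + κ γ • (-(q γ : E)))‖ +
        ‖∑ γ ∈ G, κ γ • ((p γ : E) + -(q γ : E) - -K.X γ t)‖ := norm_sub_le _ _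
    _ ≤ ε / 2 + S * δ1 := by
      gcongr
      rw [hS, Finset.sum_mul]
      refine (norm_sum_le _ _).trans (Finset.sum_le_sum fun γ hγ => ?_)
      rw [norm_smul]
      exact mul_le_mul_of_nonneg_left (hlim2 γ hγ) (norm_nonneg _)
    _ ≤ ε / 2 + S * (ε / (4 * (S + 1))) := by
      gcongr
      exact min_le_right _ _
    _ < ε := by
      have : S * (ε / (4 * (S + 1))) ≤ ε / 4 := by
        rw [mul_div_assoc', div_le_div_iff₀ (by positivity) (by norm_num)]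
        nlinarith
      linarith


instance (Γ : Set E) : Nonempty (K.D Γ) := ⟨⟨∅, by intro i hi; simp at hi⟩⟩

lemma cofinal (Γ : Set E) (w : Finset (Idx K.C)) : ∃ d ∈ K.D Γ, w ⊆ d := by
  obtain ⟨d, h1, h2, -⟩ := K.exists_ext Γ w 1 one_pos
  exact ⟨d, h1, h2⟩

instance (Γ : Set E) : IsDirectedOrder (K.D Γ) := ⟨fun a b => by
  classical
  obtain ⟨d, h1, h2⟩ := K.cofinal Γ (a.1 ∪ b.1)
  exact ⟨⟨d, h1⟩, Finset.subset_union_left.trans h2, Finset.subset_union_right.trans h2⟩⟩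

lemma dsum_iff (Γ : Set E) (α : Idx K.C → 𝕜) (y : E) :
    DSum (K.D Γ) α K.x y ↔
      Tendsto (fun d : K.D Γ => ∑ i ∈ d.1, α i • K.x i) atTop (𝓝 y) := by
  rw [Metric.tendsto_nhds]
  constructor
  · intro h ε hε
    obtain ⟨d, hd, h1⟩ := h ε hε
    rw [eventually_atTop]
    refine ⟨⟨d, hd⟩, fun b hb => ?_⟩
    rw [dist_eq_norm, norm_sub_rev]
    exact h1 b.1 b.2 hb
  · intro h ε hε
    obtain ⟨a, ha⟩ := eventually_atTop.1 (h ε hε)
    refine ⟨a.1, a.2, fun d' hd' had => ?_⟩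
    have := ha ⟨d', hd'⟩ had
    rwa [dist_eq_norm, norm_sub_rev] at this

lemma tendsto_val (Γ : Set E) : Tendsto (fun d : K.D Γ => d.1) atTop atTop := by
  rw [tendsto_atTop]
  intro w
  obtain ⟨d, hd, hwd⟩ := K.cofinal Γ w
  rw [eventually_atTop]
  exact ⟨⟨d, hd⟩, fun b hb => hwd.trans hb⟩

lemma tendsto_X (Γ : Set E) (γ : E) (hγ : γ ∈ Γ) :
    Tendsto (fun d : K.D Γ => K.X γ d.1) atTop (𝓝 γ) := by
  classical
  rw [Metric.tendsto_nhds]
  intro ε hε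
  obtain ⟨m, hm⟩ := exists_nat_one_div_lt hε
  obtain ⟨p0, hp0⟩ := K.ne
  obtain ⟨d, hd, hwd⟩ := K.cofinal Γ {(γ, ⟨p0, hp0⟩, m, none)}
  rw [eventually_atTop]
  refine ⟨⟨d, hd⟩, fun b hb => ?_⟩
  have hi : ((γ, ⟨p0, hp0⟩, m, none) : Idx K.C) ∈ b.1 := hb (hwd (Finset.mem_singleton_self _))
  have := b.2 _ hi hγ rfl
  rw [dist_eq_norm]
  exact this.trans hm

/-- vectors with an unconditional expansion -/
def Eu : Submodule 𝕜 E where
  carrier := {y | ∃ u : Idx K.C → 𝕜, HasSum (fun i => u i • K.x i) y}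
  add_mem' := by
    rintro a b ⟨u, hu⟩ ⟨v, hv⟩
    exact ⟨u + v, by simpa [add_smul] using hu.add hv⟩
  zero_mem' := ⟨0, by simp⟩
  smul_mem' := by
    rintro c a ⟨u, hu⟩
    exact ⟨c • u, by simpa [smul_smul] using hu.const_smul c⟩

lemma exists_Gamma : ∃ (G : Submodule 𝕜 E) (Γ : Set E), IsCompl K.Eu G ∧ Γ ⊆ (G : Set E) ∧
    Submodule.span 𝕜 Γ = G ∧ LinearIndependent 𝕜 ((↑) : Γ → E) := by
  obtain ⟨G, hG⟩ := Submodule.exists_isCompl K.Eu
  obtain ⟨Γ, h1, h2, h3⟩ := exists_linearIndependent 𝕜 (G : Set E)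
  exact ⟨G, Γ, hG, h1, by rw [h2, Submodule.span_eq], h3⟩

lemma exists_expansion (G : Submodule 𝕜 E) (Γ : Set E) (hG : IsCompl K.Eu G)
    (hspan : Submodule.span 𝕜 Γ = G) (y : E) : ∃ α : Idx K.C → 𝕜, DSum (K.D Γ) α K.x y := by
  classical
  simp_rw [K.dsum_iff]
  let R : Submodule 𝕜 E :=
    { carrier := {y | ∃ α : Idx K.C → 𝕜,
        Tendsto (fun d : K.D Γ => ∑ i ∈ d.1, α i • K.x i) atTop (𝓝 y)}
      add_mem' := by
        rintro a b ⟨u, hu⟩ ⟨v, hv⟩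
        refine ⟨u + v, (hu.add hv).congr fun d => ?_⟩
        rw [← Finset.sum_add_distrib]
        exact Finset.sum_congr rfl fun i _ => (add_smul _ _ _).symm
      zero_mem' := ⟨0, by simp⟩
      smul_mem' := by
        rintro c a ⟨u, hu⟩
        refine ⟨c • u, (hu.const_smul c).congr fun d => ?_⟩
        rw [Finset.smul_sum]
        exact Finset.sum_congr rfl fun i _ => by rw [Pi.smul_apply, smul_smul, smul_eq_mul] }
  have h1 : K.Eu ≤ R := by
    rintro a ⟨u, hu⟩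
    exact ⟨u, hu.comp (K.tendsto_val Γ)⟩
  have h2 : G ≤ R := by
    rw [← hspan, Submodule.span_le]
    intro γ hγ
    refine ⟨fun i => if K.inJ γ i then 1 else 0, (K.tendsto_X Γ γ hγ).congr fun d => ?_⟩
    unfold X
    refine Finset.sum_congr rfl fun i _ => ?_
    by_cases hi : K.inJ γ i <;> simp [hi]
  have h3 : (⊤ : Submodule 𝕜 E) ≤ R := by
    rw [← hG.sup_eq_top]
    exact sup_le h1 h2
  exact h3 (Submodule.mem_top (x := y))

lemma null_zero [CompleteSpace E] (G : Submodule 𝕜 E) (Γ : Set E) (hG : IsCompl K.Eu G)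
    (hΓG : Γ ⊆ (G : Set E)) (hli : LinearIndependent 𝕜 ((↑) : Γ → E))
    (α : Idx K.C → 𝕜) (h0 : DSum (K.D Γ) α K.x 0) : α = 0 := by
  classical
  choose κ hκ using fun γ => K.exists_const Γ α h0 γ
  obtain ⟨d0, G0, δ, hδ, h⟩ := K.star Γ α h0 1 one_pos
  obtain ⟨M, hM⟩ := K.exists_L d0
  have hdis : ∀ u : Finset (Idx K.C), (∀ γ, ∀ i ∈ u, K.inJ γ i ∧ M ≤ i.2.2.1 → i ∉ d0) := by
    intro u γ i _ hi hi0
    have h1 := hM i hi0
    have h2 := hi.2
    omega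
  have hz : ∀ γ, γ ∉ Γ ∨ γ ∉ G0 → κ γ = 0 := by
    intro γ hγ
    refine K.kappa_zero α γ (κ γ) (fun p => (hκ γ p).1) 1 M fun u hu => h u ?_ ?_
    · rw [Finset.disjoint_left]
      exact fun i hi => hdis u γ i hi (hu i hi)
    · intro γ' hγ' hγΓ'
      have hne : γ ≠ γ' := by
        rintro rfl
        rcases hγ with hγ | hγ
        · exact hγ hγΓ'
        · exact hγ hγ'
      rw [K.X_of_ne γ γ' hne u fun i hi => (hu i hi).1]
      simpa using hδ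
  have hsum := K.summable_sub Γ α h0 κ hκ (fun γ hγ => hz γ (Or.inl hγ))
  obtain ⟨s, hs⟩ := hsum
  set G1 := G0.filter (· ∈ Γ) with hG1
  have hκ0 : ∀ γ, γ ∉ G1 → κ γ = 0 := by
    intro γ hγ
    refine hz γ ?_
    by_contra hcon
    push Not at hcon
    exact hγ (Finset.mem_filter.2 ⟨hcon.2, hcon.1⟩)
  have t1 : Tendsto (fun d : K.D Γ => ∑ i ∈ d.1, (α i - K.kk κ i) • K.x i) atTop (𝓝 s) :=
    hs.comp (K.tendsto_val Γ)
  have t2 : Tendsto (fun d : K.D Γ => ∑ i ∈ d.1, K.kk κ i • K.x i) atTop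
      (𝓝 (∑ γ ∈ G1, κ γ • γ)) := by
    have : Tendsto (fun d : K.D Γ => ∑ γ ∈ G1, κ γ • K.X γ d.1) atTop
        (𝓝 (∑ γ ∈ G1, κ γ • γ)) :=
      tendsto_finsetSum _ fun γ hγ => (K.tendsto_X Γ γ (Finset.mem_filter.1 hγ).2).const_smul _
    exact this.congr fun d => (K.sum_kk κ G1 hκ0 d.1).symm
  have t3 : Tendsto (fun d : K.D Γ => ∑ i ∈ d.1, α i • K.x i) atTop
      (𝓝 (s + ∑ γ ∈ G1, κ γ • γ)) := by
    refine (t1.add t2).congr fun d => ?_
    rw [← Finset.sum_add_distrib]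
    exact Finset.sum_congr rfl fun i _ => by rw [← add_smul, sub_add_cancel]
  have e0 : s + ∑ γ ∈ G1, κ γ • γ = 0 := tendsto_nhds_unique t3 ((K.dsum_iff Γ α 0).1 h0)
  have hsEu : s ∈ K.Eu := ⟨_, hs⟩
  have hgG : ∑ γ ∈ G1, κ γ • γ ∈ G :=
    Submodule.sum_mem _ fun γ hγ => G.smul_mem _ (hΓG (Finset.mem_filter.1 hγ).2)
  have hs0 : s = 0 := by
    have hsG : s ∈ G := by
      have : s = -∑ γ ∈ G1, κ γ • γ := eq_neg_of_add_eq_zero_left e0
      rw [this]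
      exact G.neg_mem hgG
    have := Submodule.mem_inf.2 ⟨hsEu, hsG⟩
    rw [hG.inf_eq_bot] at this
    exact (Submodule.mem_bot 𝕜).1 this
  rw [hs0, zero_add] at e0
  have hκall : ∀ γ, κ γ = 0 := by
    intro γ
    by_cases hγ : γ ∈ G1
    · have hli' : LinearIndepOn 𝕜 id Γ := hli
      rw [linearIndepOn_iff'] at hli'
      exact hli' G1 κ (fun γ hγ => (Finset.mem_filter.1 hγ).2) e0 γ hγ
    · exact hκ0 γ hγ
  have hkk : ∀ i, K.kk κ i = 0 := by
    intro i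
    unfold kk
    split_ifs
    · rfl
    · exact hκall _
  rw [hs0] at hs
  simp_rw [hkk, sub_zero] at hs
  exact K.indep α hs

/-- the main abstract statement -/
theorem main [CompleteSpace E] : ∃ (D : Set (Finset (Idx K.C))),
    (∀ i, ∃ d ∈ D, i ∈ d) ∧
    (∀ d ∈ D, ∀ d' ∈ D, ∃ d'' ∈ D, d ⊆ d'' ∧ d' ⊆ d'') ∧
    ∃ f : Idx K.C → E → 𝕜,
      (∀ (y : E) (α : Idx K.C → 𝕜), DSum D α K.x y ↔ α = fun i => f i y) ∧
      ∀ i, ¬ Continuous (f i) := by
  classical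
  obtain ⟨G, Γ, hG, hΓG, hspan, hli⟩ := K.exists_Gamma
  choose α hα using K.exists_expansion G Γ hG hspan
  have huniq : ∀ (y : E) (a b : Idx K.C → 𝕜), DSum (K.D Γ) a K.x y → DSum (K.D Γ) b K.x y →
      a = b := by
    intro y a b ha hb
    rw [K.dsum_iff] at ha hb
    have h1 : DSum (K.D Γ) (a - b) K.x 0 := by
      rw [K.dsum_iff]
      have := ha.sub hb
      rw [sub_self] at this
      refine this.congr fun d => ?_
      rw [← Finset.sum_sub_distrib]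
      exact Finset.sum_congr rfl fun i _ => by rw [Pi.sub_apply, sub_smul]
    exact sub_eq_zero.1 (K.null_zero G Γ hG hΓG hli _ h1)
  refine ⟨K.D Γ, ?_, ?_, fun i y => α y i, ?_, ?_⟩
  · intro i
    obtain ⟨d, h1, h2⟩ := K.cofinal Γ {i}
    exact ⟨d, h1, h2 (Finset.mem_singleton_self i)⟩
  · intro d _ d' _
    obtain ⟨d'', h1, h2⟩ := K.cofinal Γ (d ∪ d')
    exact ⟨d'', h1, Finset.subset_union_left.trans h2, Finset.subset_union_right.trans h2⟩
  · intro y a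
    constructor
    · intro ha
      exact huniq y a _ ha (hα y)
    · rintro rfl
      exact hα y
  · intro i0 hcont
    have hf0 : α 0 i0 = 0 := by
      have h1 : DSum (K.D Γ) (0 : Idx K.C → 𝕜) K.x 0 := by
        rw [K.dsum_iff]; simp
      rw [huniq 0 _ _ (hα 0) h1]
      rfl
    obtain ⟨δ, hδ, hδ'⟩ := Metric.continuous_iff.1 hcont 0 1 one_pos
    obtain ⟨p, q, L, hL⟩ := K.pair 0 (-K.x i0) δ hδ
    set l := max L (i0.2.2.1 + 1) with hl
    set j : Idx K.C := (0, p, l, some true) with hj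
    set j' : Idx K.C := (0, q, l, some false) with hj'
    have hlt : i0.2.2.1 < l := lt_of_lt_of_le (Nat.lt_succ_self _) (le_max_right _ _)
    have n1 : j ≠ j' := by simp [hj, hj']
    have n2 : i0 ∉ ({j, j'} : Finset (Idx K.C)) := by
      rw [Finset.mem_insert, Finset.mem_singleton, not_or]
      constructor
      · intro h
        have : i0.2.2.1 = l := by rw [h]
        omega
      · intro h
        have : i0.2.2.1 = l := by rw [h]
        omega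
    have hsmall := hL l l (le_max_left _ _) (le_max_left _ _)
    set y : E := K.x i0 + (K.x j + K.x j') with hy
    have hynorm : ‖y‖ < δ := by
      have e : y = K.x j + K.x j' - -K.x i0 := by rw [hy]; abel
      rw [e]; exact hsmall
    let a : Idx K.C → 𝕜 := fun i => if i ∈ (insert i0 {j, j'} : Finset (Idx K.C)) then 1 else 0
    have hsum : HasSum (fun i => a i • K.x i) y := by
      have h1 : HasSum (fun i => a i • K.x i) (∑ i ∈ (insert i0 {j, j'} : Finset (Idx K.C)),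
          a i • K.x i) := hasSum_sum_of_ne_finset_zero fun i hi => by
        show (if i ∈ (insert i0 {j, j'} : Finset (Idx K.C)) then (1:𝕜) else 0) • K.x i = 0
        rw [if_neg hi, zero_smul]
      have h2 : (∑ i ∈ (insert i0 {j, j'} : Finset (Idx K.C)), a i • K.x i) = y := by
        rw [hy, ← Finset.sum_pair n1, ← Finset.sum_insert n2]
        refine Finset.sum_congr rfl fun i hi => ?_
        show (if i ∈ (insert i0 {j, j'} : Finset (Idx K.C)) then (1:𝕜) else 0) • K.x i = K.x i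
        rw [if_pos hi, one_smul]
      rwa [h2] at h1
    have hD : DSum (K.D Γ) a K.x y := (K.dsum_iff Γ a y).2 (hsum.comp (K.tendsto_val Γ))
    have hay : α y = a := huniq y _ _ (hα y) hD
    have h1 := hδ' y (by rwa [dist_eq_norm, sub_zero])
    simp only at h1
    rw [hf0, hay, dist_eq_norm, sub_zero] at h1
    have h2 : a i0 = 1 := if_pos (Finset.mem_insert_self _ _)
    rw [h2, norm_one] at h1
    exact lt_irrefl _ h1

end Kit

/-! ### the concrete space -/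

/-- the Banach space ℓ¹(ℕ × ℤ) -/
abbrev L1 (𝕜 : Type) [RCLike 𝕜] := lp (fun _ : ℕ × ℤ => 𝕜) 1

/-- the ray of the real number a -/
noncomputable def ray (a : ℝ) (n : ℕ) : ℕ × ℤ := (n, ⌊(n : ℝ) * a⌋)

lemma ray_inj (a : ℝ) : Function.Injective (ray a) := fun _ _ h => congrArg Prod.fst h

lemma ray_zero (a : ℝ) : ray a 0 = (0, 0) := by simp [ray]

lemma ray_ne (a b : ℝ) (hab : a ≠ b) : ∀ᶠ n in atTop, ray a n ≠ ray b n := by
  obtain ⟨N, hN⟩ := exists_nat_gt (1 / |a - b|)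
  have hpos : 0 < |a - b| := abs_pos.2 (sub_ne_zero.2 hab)
  filter_upwards [eventually_ge_atTop N] with n hn h
  have h1 : ⌊(n : ℝ) * a⌋ = ⌊(n : ℝ) * b⌋ := congrArg Prod.snd h
  have h2 := Int.abs_sub_lt_one_of_floor_eq_floor h1
  rw [← mul_sub, abs_mul, abs_of_nonneg (Nat.cast_nonneg n)] at h2
  have h3 : (N : ℝ) ≤ n := by exact_mod_cast hn
  rw [div_lt_iff₀ hpos] at hN
  nlinarith

/-- coordinates of the private vector -/
noncomputable def zfun (𝕜 : Type) [RCLike 𝕜] (a : ℝ) (t : ℕ × ℤ) : 𝕜 :=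
  if t = ray a t.1 then (((1/2 : ℝ) ^ t.1 : ℝ) : 𝕜) else 0

lemma zfun_ray (𝕜 : Type) [RCLike 𝕜] (a : ℝ) (n : ℕ) :
    zfun 𝕜 a (ray a n) = (((1/2 : ℝ) ^ n : ℝ) : 𝕜) := by
  unfold zfun
  rw [if_pos]
  · rfl
  · rfl

lemma zfun_not (𝕜 : Type) [RCLike 𝕜] (a : ℝ) (t : ℕ × ℤ) (h : t ∉ Set.range (ray a)) :
    zfun 𝕜 a t = 0 := by
  unfold zfun
  rw [if_neg]
  exact fun h' => h ⟨t.1, h'.symm⟩

lemma zfun_norm_hasSum (𝕜 : Type) [RCLike 𝕜] (a : ℝ) :
    HasSum (fun t => ‖zfun 𝕜 a t‖) 2 := by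
  have h1 : HasSum ((fun t => ‖zfun 𝕜 a t‖) ∘ ray a) 2 := by
    have : ((fun t => ‖zfun 𝕜 a t‖) ∘ ray a) = fun n : ℕ => (1/2 : ℝ) ^ n := by
      funext n
      simp only [Function.comp_apply, zfun_ray, RCLike.norm_ofReal]
      exact abs_of_nonneg (by positivity)
    rw [this]
    exact hasSum_geometric_two
  refine ((ray_inj a).hasSum_iff ?_).1 h1
  intro t ht
  rw [zfun_not 𝕜 a t ht, norm_zero]

/-- the private vector -/
noncomputable def zvec (𝕜 : Type) [RCLike 𝕜] (a : ℝ) : L1 𝕜 :=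
  ⟨zfun 𝕜 a, memℓp_gen (by simpa using (zfun_norm_hasSum 𝕜 a).summable)⟩

lemma zvec_apply (𝕜 : Type) [RCLike 𝕜] (a : ℝ) (t : ℕ × ℤ) : zvec 𝕜 a t = zfun 𝕜 a t := rfl

lemma zvec_norm (𝕜 : Type) [RCLike 𝕜] (a : ℝ) : ‖zvec 𝕜 a‖ ≤ 2 := by
  have h1 := lp.hasSum_norm (p := 1) (by norm_num) (zvec 𝕜 a)
  have h2 : HasSum (fun t => ‖zvec 𝕜 a t‖ ^ (1 : ENNReal).toReal) 2 := by
    simp only [ENNReal.toReal_one, Real.rpow_one, zvec_apply]
    exact zfun_norm_hasSum 𝕜 a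
  have := h1.unique h2
  simpa using this.le

/-- the cone -/
def cone (𝕜 : Type) [RCLike 𝕜] : Set (L1 𝕜) :=
  {p | (∃ s : Finset (ℕ × ℤ), ∀ t, t ∉ s → p t = 0) ∧ 0 < RCLike.re (p (0, 0)) ∧
    ∀ t, t ≠ (0, 0) → ‖p t‖ ≤ (1/2 : ℝ) ^ t.1 * RCLike.re (p (0, 0))}

lemma cone_dom (𝕜 : Type) [RCLike 𝕜] (p : L1 𝕜) (hp : p ∈ cone 𝕜) (a : ℝ) (l : ℕ) (t : ℕ × ℤ) :
    ‖(p + ((2:𝕜)⁻¹ ^ l) • zvec 𝕜 a : L1 𝕜) t‖ ≤
      (1/2 : ℝ) ^ t.1 * ‖(p + ((2:𝕜)⁻¹ ^ l) • zvec 𝕜 a : L1 𝕜) (0, 0)‖ := by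
  obtain ⟨-, h1, h2⟩ := hp
  by_cases ht : t = (0, 0)
  · subst ht; simp
  have e0 : (p + ((2:𝕜)⁻¹ ^ l) • zvec 𝕜 a : L1 𝕜) (0, 0) = p (0, 0) + (((1/2 : ℝ) ^ l : ℝ) : 𝕜) := by
    rw [lp.coeFn_add, lp.coeFn_smul, Pi.add_apply, Pi.smul_apply, zvec_apply]
    have : zfun 𝕜 a (0, 0) = 1 := by
      have := zfun_ray 𝕜 a 0
      rw [ray_zero] at this
      simpa using this
    rw [this]
    push_cast
    simp
  have h3 : RCLike.re (p (0,0)) + (1/2 : ℝ) ^ l ≤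
      ‖(p + ((2:𝕜)⁻¹ ^ l) • zvec 𝕜 a : L1 𝕜) (0, 0)‖ := by
    rw [e0]
    have := RCLike.re_le_norm (p (0, 0) + (((1/2 : ℝ) ^ l : ℝ) : 𝕜))
    rwa [map_add, RCLike.ofReal_re] at this
  have h4 : ‖zfun 𝕜 a t‖ ≤ (1/2 : ℝ) ^ t.1 := by
    unfold zfun
    split_ifs
    · rw [RCLike.norm_ofReal, abs_of_nonneg (by positivity)]
    · rw [norm_zero]; positivity
  have h5 : ‖(p + ((2:𝕜)⁻¹ ^ l) • zvec 𝕜 a : L1 𝕜) t‖ ≤ ‖p t‖ + (1/2 : ℝ) ^ l * ‖zfun 𝕜 a t‖ := by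
    rw [lp.coeFn_add, lp.coeFn_smul, Pi.add_apply, Pi.smul_apply, zvec_apply]
    refine (norm_add_le _ _).trans ?_
    rw [norm_smul, Kit.norm_pow]
  have h6 : (0:ℝ) < (1/2 : ℝ) ^ t.1 := by positivity
  have h7 : (0:ℝ) < (1/2 : ℝ) ^ l := by positivity
  calc _ ≤ ‖p t‖ + (1/2 : ℝ) ^ l * ‖zfun 𝕜 a t‖ := h5
    _ ≤ (1/2 : ℝ) ^ t.1 * RCLike.re (p (0, 0)) + (1/2 : ℝ) ^ l * (1/2 : ℝ) ^ t.1 := by
      gcongr
      exact h2 t ht
    _ = (1/2 : ℝ) ^ t.1 * (RCLike.re (p (0,0)) + (1/2 : ℝ) ^ l) := by ring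
    _ ≤ _ := by gcongr

/-- evaluation -/
noncomputable def ev (𝕜 : Type) [RCLike 𝕜] (t : ℕ × ℤ) : L1 𝕜 →L[𝕜] 𝕜 :=
  lp.evalCLM 𝕜 (fun _ : ℕ × ℤ => 𝕜) 1 t

lemma ev_apply (𝕜 : Type) [RCLike 𝕜] (t : ℕ × ℤ) (p : L1 𝕜) : ev 𝕜 t p = p t := rfl

/-- independence -/
lemma indep (𝕜 : Type) [RCLike 𝕜] {I : Type} (lam : I → ℝ) (hlam : Function.Injective lam)
    (sgn : I → 𝕜) (hsgn : ∀ i, ‖sgn i‖ = 1) (P : I → L1 𝕜) (hP : ∀ i, P i ∈ cone 𝕜) (l : I → ℕ)
    (u : I → 𝕜)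
    (hu : HasSum (fun i => u i • (sgn i • (P i + ((2:𝕜)⁻¹ ^ l i) • zvec 𝕜 (lam i)))) (0 : L1 𝕜)) :
    u = 0 := by
  classical
  set y : I → L1 𝕜 := fun i => P i + ((2:𝕜)⁻¹ ^ l i) • zvec 𝕜 (lam i) with hy
  have hev : ∀ t, HasSum (fun i => u i * (sgn i * y i t)) 0 := by
    intro t
    have := (ev 𝕜 t).hasSum hu
    rw [map_zero] at this
    convert this using 1
    funext i
    rw [map_smul, map_smul, ev_apply, smul_eq_mul, smul_eq_mul]
  have hbound : Summable (fun i => ‖u i * (sgn i * y i (0, 0))‖) :=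
    summable_norm_iff.2 (hev (0, 0)).summable
  funext k
  have key := tendsto_tsum_of_dominated_convergence (𝓕 := atTop)
    (f := fun (n : ℕ) i => (2:𝕜) ^ n * (u i * (sgn i * y i (ray (lam k) n))))
    (g := fun i => if i = k then u k * (sgn k * (2:𝕜)⁻¹ ^ l k) else 0) hbound ?_ ?_
  · have h1 : ∀ n : ℕ, ∑' i, (2:𝕜) ^ n * (u i * (sgn i * y i (ray (lam k) n))) = 0 := by
      intro n
      have := ((hev (ray (lam k) n)).mul_left ((2:𝕜) ^ n)).tsum_eq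
      rwa [mul_zero] at this
    simp_rw [h1] at key
    rw [tsum_ite_eq] at key
    have h2 : u k * (sgn k * (2:𝕜)⁻¹ ^ l k) = 0 := tendsto_nhds_unique key tendsto_const_nhds
    have h3 : sgn k ≠ 0 := by
      intro h
      have := hsgn k
      rw [h, norm_zero] at this
      exact zero_ne_one this
    have h4 : ((2:𝕜)⁻¹ ^ l k) ≠ 0 := by simp
    rcases mul_eq_zero.1 h2 with h | h
    · exact h
    · exact absurd h (mul_ne_zero h3 h4)
  · intro i
    obtain ⟨s, hs⟩ := (hP i).1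
    have hev1 : ∀ᶠ n in atTop, ray (lam k) n ∉ s := by
      have : Tendsto (ray (lam k)) atTop cofinite := by
        rw [← Nat.cofinite_eq_atTop]
        exact (ray_inj (lam k)).tendsto_cofinite
      exact this.eventually (s.finite_toSet.compl_mem_cofinite)
    by_cases hik : i = k
    · subst hik
      rw [if_pos rfl]
      refine tendsto_const_nhds.congr' ?_
      filter_upwards [hev1] with n hn
      have e : y i (ray (lam i) n) = (2:𝕜)⁻¹ ^ l i * (2:𝕜)⁻¹ ^ n := by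
        rw [hy]
        simp only [lp.coeFn_add, lp.coeFn_smul, Pi.add_apply, Pi.smul_apply, zvec_apply, smul_eq_mul]
        rw [hs _ hn, zfun_ray, zero_add]
        push_cast
        norm_num
      rw [e]
      have h2 : (2:𝕜) ^ n * (2:𝕜)⁻¹ ^ n = 1 := by
        rw [← mul_pow, mul_inv_cancel₀ two_ne_zero, one_pow]
      linear_combination (-(u i * (sgn i * (2:𝕜)⁻¹ ^ l i))) * h2
    · rw [if_neg hik]
      refine tendsto_const_nhds.congr' ?_
      filter_upwards [hev1, ray_ne (lam k) (lam i) (fun h => hik (hlam h.symm))] with n hn hne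
      have e : y i (ray (lam k) n) = 0 := by
        rw [hy]
        simp only [lp.coeFn_add, lp.coeFn_smul, Pi.add_apply, Pi.smul_apply, zvec_apply, smul_eq_mul]
        rw [hs _ hn, zfun_not, mul_zero, add_zero]
        rintro ⟨m, hm⟩
        have : m = n := congrArg Prod.fst hm
        subst this
        exact hne hm.symm
      rw [e]; ring
  · filter_upwards with n i
    rw [norm_mul, norm_mul, norm_mul, norm_mul, norm_mul]
    have h1 := cone_dom 𝕜 (P i) (hP i) (lam i) (l i) (ray (lam k) n)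
    have h2 : (ray (lam k) n).1 = n := rfl
    rw [h2] at h1
    have h3 : ‖(2:𝕜) ^ n‖ = 2 ^ n := by rw [norm_pow, RCLike.norm_two]
    rw [h3]
    have h4 : (2:ℝ)^n * ((1/2:ℝ)^n) = 1 := by rw [← mul_pow]; norm_num
    calc 2 ^ n * (‖u i‖ * (‖sgn i‖ * ‖y i (ray (lam k) n)‖))
        ≤ 2 ^ n * (‖u i‖ * (‖sgn i‖ * ((1/2 : ℝ) ^ n * ‖y i (0, 0)‖))) := by gcongr
      _ = (2 ^ n * (1/2 : ℝ) ^ n) * (‖u i‖ * (‖sgn i‖ * ‖y i (0, 0)‖)) := by ring
      _ = _ := by rw [h4, one_mul]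

lemma card_field (𝕜 : Type) [RCLike 𝕜] : Cardinal.mk 𝕜 ≤ Cardinal.continuum := by
  have h : Function.Injective (fun z : 𝕜 => (RCLike.re z, RCLike.im z)) := fun a b hab =>
    RCLike.ext (congrArg Prod.fst hab) (congrArg Prod.snd hab)
  refine (Cardinal.mk_le_of_injective h).trans ?_
  rw [Cardinal.mk_prod, Cardinal.lift_id, Cardinal.mk_real, Cardinal.continuum_mul_self]

lemma card_L1 (𝕜 : Type) [RCLike 𝕜] : Cardinal.mk (L1 𝕜) ≤ Cardinal.continuum := by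
  have h : Function.Injective (fun p : L1 𝕜 => (fun t => p t : ℕ × ℤ → 𝕜)) := fun a b hab =>
    lp.ext hab
  refine (Cardinal.mk_le_of_injective h).trans ?_
  rw [← Cardinal.power_def]
  refine (Cardinal.power_le_power_right (card_field 𝕜)).trans ?_
  rw [Cardinal.mk_eq_aleph0 (ℕ × ℤ), Cardinal.continuum_power_aleph0]

lemma exists_lam (𝕜 : Type) [RCLike 𝕜] (C : Set (L1 𝕜)) :
    ∃ lam : Idx C → ℝ, Function.Injective lam := by
  have h : Cardinal.mk (Idx C) ≤ Cardinal.mk ℝ := by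
    rw [Cardinal.mk_real]
    have h1 : Cardinal.mk (ℕ × Option Bool) ≤ Cardinal.continuum :=
      (Cardinal.mk_le_aleph0).trans Cardinal.aleph0_le_continuum
    have h2 : Cardinal.mk C ≤ Cardinal.continuum := (Cardinal.mk_set_le C).trans (card_L1 𝕜)
    have h3 : Cardinal.mk (C × ℕ × Option Bool) ≤ Cardinal.continuum := by
      rw [Cardinal.mk_prod, Cardinal.lift_id, Cardinal.lift_id]
      exact (mul_le_mul' h2 h1).trans Cardinal.continuum_mul_self.le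
    unfold Idx
    rw [Cardinal.mk_prod, Cardinal.lift_id, Cardinal.lift_id]
    exact (mul_le_mul' (card_L1 𝕜) h3).trans Cardinal.continuum_mul_self.le
  obtain ⟨f⟩ := h
  exact ⟨f, f.injective⟩

lemma cone_add (𝕜 : Type) [RCLike 𝕜] (p : L1 𝕜) (hp : p ∈ cone 𝕜) (q : L1 𝕜) (hq : q ∈ cone 𝕜) :
    p + q ∈ cone 𝕜 := by
  classical
  obtain ⟨⟨s, hs⟩, h1, h2⟩ := hp
  obtain ⟨⟨s', hs'⟩, h1', h2'⟩ := hq
  refine ⟨⟨s ∪ s', fun t ht => ?_⟩, ?_, fun t ht => ?_⟩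
  · rw [Finset.mem_union, not_or] at ht
    rw [lp.coeFn_add, Pi.add_apply, hs t ht.1, hs' t ht.2, add_zero]
  · rw [lp.coeFn_add, Pi.add_apply, map_add]
    exact add_pos h1 h1'
  · rw [lp.coeFn_add, Pi.add_apply, Pi.add_apply, map_add, mul_add]
    exact (norm_add_le _ _).trans (add_le_add (h2 t ht) (h2' t ht))

lemma cone_smul (𝕜 : Type) [RCLike 𝕜] (r : ℝ) (hr : 0 < r) (p : L1 𝕜) (hp : p ∈ cone 𝕜) :
    (r : 𝕜) • p ∈ cone 𝕜 := by
  obtain ⟨⟨s, hs⟩, h1, h2⟩ := hp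
  refine ⟨⟨s, fun t ht => ?_⟩, ?_, fun t ht => ?_⟩
  · rw [lp.coeFn_smul, Pi.smul_apply, hs t ht, smul_zero]
  · rw [lp.coeFn_smul, Pi.smul_apply, smul_eq_mul, RCLike.re_ofReal_mul]
    exact mul_pos hr h1
  · rw [lp.coeFn_smul, Pi.smul_apply, Pi.smul_apply, smul_eq_mul, smul_eq_mul,
      RCLike.re_ofReal_mul, norm_mul, RCLike.norm_ofReal, abs_of_pos hr]
    have := mul_le_mul_of_nonneg_left (h2 t ht) hr.le
    linarith

/-- unit vector at the root -/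
noncomputable def rt (𝕜 : Type) [RCLike 𝕜] : L1 𝕜 := lp.single 1 ((0, 0) : ℕ × ℤ) (1 : 𝕜)

lemma rt_root (𝕜 : Type) [RCLike 𝕜] : rt 𝕜 (0, 0) = 1 := lp.single_apply_self _ _ _

lemma rt_ne (𝕜 : Type) [RCLike 𝕜] (t : ℕ × ℤ) (ht : t ≠ (0, 0)) : rt 𝕜 t = 0 :=
  lp.single_apply_ne _ _ _ ht

lemma rt_mem (𝕜 : Type) [RCLike 𝕜] : rt 𝕜 ∈ cone 𝕜 := by
  refine ⟨⟨{(0, 0)}, fun t ht => rt_ne 𝕜 t (by simpa using ht)⟩, ?_, fun t ht => ?_⟩
  · rw [rt_root]; simp
  · rw [rt_root, rt_ne 𝕜 t ht, norm_zero]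
    simp

lemma cone_approx (𝕜 : Type) [RCLike 𝕜] (y : L1 𝕜) (δ : ℝ) (hδ : 0 < δ) :
    ∃ p ∈ cone 𝕜, ∃ q ∈ cone 𝕜, ‖p - q - y‖ < δ := by
  classical
  have h1 := lp.hasSum_single (p := 1) (by norm_num) y
  rw [HasSum, SummationFilter.unconditional_filter, Metric.tendsto_atTop] at h1
  obtain ⟨s, hs⟩ := h1 δ hδ
  have h2 := hs s le_rfl
  rw [dist_eq_norm] at h2
  set r : L1 𝕜 := ∑ t ∈ s, lp.single 1 t (y t) with hr
  have hr0 : ∀ t, r t = if t ∈ s then y t else 0 := by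
    intro t
    rw [hr, lp.coeFn_sum, Finset.sum_apply]
    simp_rw [lp.single_apply, Pi.single_apply]
    rw [Finset.sum_ite_eq]
  have hsupp : ∀ t, t ∉ s → r t = 0 := fun t ht => by rw [hr0, if_neg ht]
  set M : ℝ := ∑ t ∈ s, ‖r t‖ * 2 ^ t.1 + ‖r (0, 0)‖ + 1 with hM
  have hS : 0 ≤ ∑ t ∈ s, ‖r t‖ * (2:ℝ) ^ t.1 := Finset.sum_nonneg fun _ _ => by positivity
  have hM0 : 0 < M := by positivity
  have hre : ∑ t ∈ s, ‖r t‖ * (2:ℝ) ^ t.1 < RCLike.re (r (0, 0)) + M := by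
    have := RCLike.abs_re_le_norm (r (0, 0))
    have := (abs_le.1 this).1
    rw [hM]; linarith
  refine ⟨r + (M : 𝕜) • rt 𝕜, ?_, (M : 𝕜) • rt 𝕜, cone_smul 𝕜 M hM0 _ (rt_mem 𝕜), ?_⟩
  · have hroot : RCLike.re ((r + (M : 𝕜) • rt 𝕜 : L1 𝕜) (0, 0)) = RCLike.re (r (0, 0)) + M := by
      rw [lp.coeFn_add, lp.coeFn_smul, Pi.add_apply, Pi.smul_apply, rt_root, smul_eq_mul, mul_one,
        map_add, RCLike.ofReal_re]
    have hother : ∀ t, t ≠ (0, 0) → (r + (M : 𝕜) • rt 𝕜 : L1 𝕜) t = r t := by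
      intro t ht
      rw [lp.coeFn_add, lp.coeFn_smul, Pi.add_apply, Pi.smul_apply, rt_ne 𝕜 t ht, smul_zero,
        add_zero]
    refine ⟨⟨insert (0, 0) s, fun t ht => ?_⟩, ?_, fun t ht => ?_⟩
    · rw [Finset.mem_insert, not_or] at ht
      rw [hother t ht.1, hsupp t ht.2]
    · rw [hroot]; linarith
    · rw [hroot, hother t ht]
      by_cases hts : t ∈ s
      · have h3 : ‖r t‖ * (2:ℝ) ^ t.1 ≤ ∑ t ∈ s, ‖r t‖ * (2:ℝ) ^ t.1 :=
          Finset.single_le_sum (f := fun t : ℕ × ℤ => ‖r t‖ * (2:ℝ) ^ t.1)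
            (fun _ _ => by positivity) hts
        have h4 : (1/2 : ℝ) ^ t.1 * (2:ℝ) ^ t.1 = 1 := by rw [← mul_pow]; norm_num
        calc ‖r t‖ = (1/2 : ℝ) ^ t.1 * (‖r t‖ * (2:ℝ) ^ t.1) := by
              linear_combination (-‖r t‖) * h4
          _ ≤ _ := by
            gcongr
            linarith
      · rw [hsupp t hts, norm_zero]
        have : 0 < RCLike.re (r (0, 0)) + M := by linarith
        positivity
  · rw [add_sub_cancel_right]
    exact h2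

lemma cone_sep (𝕜 : Type) [RCLike 𝕜] (p : L1 𝕜) (hp : p ∈ cone 𝕜) (q : L1 𝕜) (hq : q ∈ cone 𝕜) :
    ∃ r ∈ cone 𝕜, ∃ ψ : L1 𝕜 →L[𝕜] 𝕜, ψ p = 0 ∧ ψ q = 0 ∧ ψ r ≠ 0 := by
  classical
  obtain ⟨s, hs⟩ := hp.1
  obtain ⟨s', hs'⟩ := hq.1
  obtain ⟨t, ht⟩ := Infinite.exists_notMem_finset (insert (0, 0) (s ∪ s'))
  rw [Finset.mem_insert, Finset.mem_union, not_or, not_or] at ht
  obtain ⟨ht0, ht1, ht2⟩ := ht
  set w : L1 𝕜 := lp.single 1 t ((((1/2 : ℝ) ^ t.1 : ℝ)) : 𝕜) with hw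
  have hwt : w t = ((((1/2 : ℝ) ^ t.1 : ℝ)) : 𝕜) := lp.single_apply_self _ _ _
  have hwn : ∀ t', t' ≠ t → w t' = 0 := fun t' h => lp.single_apply_ne _ _ _ h
  refine ⟨rt 𝕜 + w, ?_, ev 𝕜 t, ?_, ?_, ?_⟩
  · have hroot : (rt 𝕜 + w : L1 𝕜) (0, 0) = 1 := by
      rw [lp.coeFn_add, Pi.add_apply, rt_root, hwn _ (Ne.symm ht0), add_zero]
    refine ⟨⟨{(0, 0), t}, fun t' ht' => ?_⟩, ?_, fun t' ht' => ?_⟩
    · rw [Finset.mem_insert, Finset.mem_singleton, not_or] at ht'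
      rw [lp.coeFn_add, Pi.add_apply, rt_ne 𝕜 t' ht'.1, hwn t' ht'.2, add_zero]
    · rw [hroot]; simp
    · rw [hroot, lp.coeFn_add, Pi.add_apply, rt_ne 𝕜 t' ht', zero_add]
      by_cases h : t' = t
      · subst h
        rw [hwt, RCLike.norm_ofReal, abs_of_nonneg (by positivity)]
        simp
      · rw [hwn t' h, norm_zero]
        simp
  · rw [ev_apply, hs t ht1]
  · rw [ev_apply, hs' t ht2]
  · rw [ev_apply, lp.coeFn_add, Pi.add_apply, rt_ne 𝕜 t ht0, zero_add, hwt]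
    simp

lemma exists_kit (𝕜 : Type) [RCLike 𝕜] : Nonempty (Kit 𝕜 (L1 𝕜)) := by
  obtain ⟨lam, hlam⟩ := exists_lam 𝕜 (cone 𝕜)
  refine ⟨{
    C := cone 𝕜
    z := fun i => zvec 𝕜 (lam i)
    ρ := ev 𝕜 (0, 0)
    hz := fun i => zvec_norm 𝕜 _
    hρz := fun i => ?_
    hρC := fun p hp => hp.2.1
    add := cone_add 𝕜
    smul := cone_smul 𝕜
    ne := ⟨rt 𝕜, rt_mem 𝕜⟩
    approx := cone_approx 𝕜
    sep := cone_sep 𝕜
    indep := fun u hu => ?_ }⟩
  · rw [ev_apply, zvec_apply]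
    have := zfun_ray 𝕜 (lam i) 0
    rw [ray_zero] at this
    simpa using this
  · refine indep 𝕜 lam hlam (fun i => sg 𝕜 i.2.2.2) (fun i => ?_) (fun i => i.2.1)
      (fun i => i.2.1.2) (fun i => i.2.2.1) u hu
    rcases i with ⟨_, _, _, _ | _ | _⟩ <;> simp [sg]

/-- Fremlin's question has a negative answer, over the reals and over the complex numbers: there
are a Banach space `E`, a nonempty index set `I`, a family `D` of finite subsets of `I` which covers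
`I` and is directed upwards, and a family `x` in `E` with maps `f i : E → 𝕜` such that for all `y`
and `α` one has `y = ∑^D α i • x i` if and only if `α i = f i y` for all `i` (so `x` is an
`(I, D)`-conditional basis with coefficient functionals `f i`), and such that every coefficient
functional `f i` is discontinuous. -/
theorem result (𝕜 : Type) [RCLike 𝕜] :
    ∃ (E : Type) (_ : NormedAddCommGroup E) (_ : NormedSpace 𝕜 E) (_ : CompleteSpace E)
      (I : Type) (_ : Nonempty I) (D : Set (Finset I)) (x : I → E),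
      (∀ i, ∃ d ∈ D, i ∈ d) ∧
      (∀ d ∈ D, ∀ d' ∈ D, ∃ d'' ∈ D, d ⊆ d'' ∧ d' ⊆ d'') ∧
      ∃ f : I → E → 𝕜,
        (∀ (y : E) (α : I → 𝕜), DSum D α x y ↔ α = fun i => f i y) ∧
        ∀ i, ¬ Continuous (f i) := by
  obtain ⟨K⟩ := exists_kit 𝕜
  obtain ⟨p0, hp0⟩ := K.ne
  obtain ⟨D, h1, h2, h3⟩ := K.main
  exact ⟨L1 𝕜, inferInstance, inferInstance, inferInstance, Idx K.C,
    ⟨(0, ⟨p0, hp0⟩, 0, none)⟩, D, K.x, h1, h2, h3⟩

end Pool.Agent.Results.MP_e67678_an.DiscontinuousCoefficients
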